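import Pool.Agent.H6.FI.TargetsB

/-!
# MP_7500ea_al: row ASK, the kernel of the action on a normal subgroup isomorphic to A5
-/

set_option autoImplicit false

open FI AMc AMt

namespace Pool.Agent.H99.FI

theorem ask_comap (h2 : T_SQ) {A B : Type} [Group A] [Finite A] [Group B] [Finite B]
    (f : A →* B) (hf : Function.Bijective f) : (sol B).comap f = sol A := by
  refine (h2 A B f hf.2 ?_).2
  have hk : f.ker = ⊥ := (MonoidHom.ker_eq_bot_iff _).mpr hf.1
  rw [hk]
  infer_instance

/-- the radical of a normal subgroup is trivial if the radical is -/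
theorem ask_normal (h1 : T_SOL) (h2 : T_SQ) {X : Type} [Group X] [Finite X] (N : Subgroup X)
    [hN : N.Normal] (hX : sol X = ⊥) : sol N = ⊥ := by
  set P : Subgroup X := (sol N).map N.subtype with hP
  have hPn : P.Normal := by
    refine ⟨?_⟩
    rintro _ ⟨n, hn, rfl⟩ x
    have hc := ask_comap h2 (MulAut.conjNormal x : N ≃* N).toMonoidHom
      (MulAut.conjNormal x : N ≃* N).bijective
    refine ⟨(MulAut.conjNormal x : N ≃* N) n, ?_, ?_⟩
    · have h3 : n ∈ (sol N).comap (MulAut.conjNormal x : N ≃* N).toMonoidHom := by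
        rw [hc]
        exact hn
      exact h3
    · show (((MulAut.conjNormal x : N ≃* N) n : N) : X) = x * (n : X) * x⁻¹
      exact MulAut.conjNormal_apply x n
  have hPs : Group.IsSolvable P := by
    have hs : Group.IsSolvable (sol N) := (h1 N).1
    exact Group.isSolvable_of_surjective (N.subtype.subgroupMap_surjective (sol N))
  have hle : P ≤ sol X := (h1 X).2.1 P hPn hPs
  rw [hX, le_bot_iff] at hle
  exact (Subgroup.map_eq_bot_iff_of_injective _ N.subtype_injective).mp hle

theorem ask_A5 : A5 ≠ ⊥ := by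
  intro h
  have h4 : Equiv.swap (0 : Fin 5) 1 * Equiv.swap (1 : Fin 5) 2 ∈ A5 := by
    rw [Equiv.Perm.mem_alternatingGroup]
    decide
  rw [h, Subgroup.mem_bot] at h4
  revert h4
  decide

theorem pf_ASK (h1 : T_SOL) (h2 : T_SQ) : T_ASK := by
  intro X _ _ L hLn γ hX hA
  have hinf := hA.inf
  have hmap := hA.map
  have hinj : Function.Injective ((QuotientGroup.mk' L).subgroupMap γ.ker) := by
    rw [injective_iff_map_eq_one]
    intro n hn
    have h3 : QuotientGroup.mk' L (n : X) = 1 :=
      congrArg (fun z : (γ.ker.map (QuotientGroup.mk' L)) => (z : X ⧸ L)) hn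
    have h4 : (n : X) ∈ L := by
      rwa [← MonoidHom.mem_ker, QuotientGroup.ker_mk'] at h3
    have h5 : (n : X) ∈ L ⊓ γ.ker := ⟨h4, n.2⟩
    rw [hinf, Subgroup.mem_bot] at h5
    exact Subtype.ext h5
  have hbij : Function.Bijective ((QuotientGroup.mk' L).subgroupMap γ.ker) :=
    ⟨hinj, (QuotientGroup.mk' L).subgroupMap_surjective γ.ker⟩
  have s1 : sol γ.ker = ⊥ := ask_normal h1 h2 γ.ker hX
  have s2 : sol (γ.ker.map (QuotientGroup.mk' L)) = ⊥ := by
    have hc := ask_comap h2 ((QuotientGroup.mk' L).subgroupMap γ.ker) hbij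
    rw [s1] at hc
    rw [eq_bot_iff]
    intro b hb
    obtain ⟨a, rfl⟩ := hbij.2 b
    have h3 : a ∈ (sol (γ.ker.map (QuotientGroup.mk' L))).comap
        ((QuotientGroup.mk' L).subgroupMap γ.ker) := hb
    rw [hc, Subgroup.mem_bot] at h3
    rw [h3, map_one]
    exact Subgroup.one_mem _
  have s3 : Nat.card (γ.ker.map (QuotientGroup.mk' L)) = Nat.card γ.ker :=
    (Nat.card_congr (Equiv.ofBijective _ hbij)).symm
  have hLb : L ≠ ⊥ := by
    intro h
    rw [h, Subgroup.map_bot] at hmap
    exact ask_A5 hmap.symm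
  have hkt : γ.ker ≠ ⊤ := by
    intro h
    have h3 : L.map γ = ⊥ := by
      rw [eq_bot_iff]
      rintro _ ⟨x, _, rfl⟩
      have hx : x ∈ γ.ker := by rw [h]; exact Subgroup.mem_top x
      rw [Subgroup.mem_bot]
      exact hx
    rw [h3] at hmap
    exact ask_A5 hmap.symm
  refine ⟨s1, s2, s3, ?_, ?_, ?_⟩
  · refine lt_of_le_of_ne (Subgroup.card_le_card_group _) fun h => hkt ?_
    exact Subgroup.eq_top_of_card_eq _ h
  · have h3 := Subgroup.card_eq_card_quotient_mul_card_subgroup L
    have h4 : 1 < Nat.card L := by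
      rw [Subgroup.one_lt_card_iff_ne_bot]
      exact hLb
    have h5 : 0 < Nat.card (X ⧸ L) := Nat.card_pos
    rw [h3]
    exact lt_mul_of_one_lt_right h5 h4
  · have hSn : (γ.ker.map (QuotientGroup.mk' L)).Normal :=
      Subgroup.Normal.map inferInstance _ (QuotientGroup.mk'_surjective L)
    have hQ : (sol (X ⧸ L)).subgroupOf (γ.ker.map (QuotientGroup.mk' L)) = ⊥ := by
      have hs : Group.IsSolvable (sol (X ⧸ L)) := (h1 (X ⧸ L)).1
      have hsolv : Group.IsSolvable
          ((sol (X ⧸ L)).subgroupOf (γ.ker.map (QuotientGroup.mk' L))) := by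
        let g : ((sol (X ⧸ L)).subgroupOf (γ.ker.map (QuotientGroup.mk' L))) →* sol (X ⧸ L) :=
          { toFun := fun x => ⟨((x : γ.ker.map (QuotientGroup.mk' L)) : X ⧸ L), x.2⟩
            map_one' := rfl
            map_mul' := fun _ _ => rfl }
        have hg : Function.Injective g := by
          intro x y h
          have h' : ((x : γ.ker.map (QuotientGroup.mk' L)) : X ⧸ L) =
            ((y : γ.ker.map (QuotientGroup.mk' L)) : X ⧸ L) :=
              congrArg (fun z : sol (X ⧸ L) => (z : X ⧸ L)) h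
          exact Subtype.ext (Subtype.ext h')
        exact Group.isSolvable_of_isSolvable_injective hg
      have hle := (h1 (γ.ker.map (QuotientGroup.mk' L))).2.1 _
        (Subgroup.Normal.subgroupOf inferInstance _) hsolv
      rw [s2, le_bot_iff] at hle
      exact hle
    have h3 : (sol (X ⧸ L)).relIndex (γ.ker.map (QuotientGroup.mk' L)) = Nat.card γ.ker := by
      unfold Subgroup.relIndex
      rw [hQ, Subgroup.index_bot, s3]
    rw [← h3]
    apply Nat.le_of_dvd (Nat.pos_of_ne_zero Subgroup.index_ne_zero_of_finite)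
    exact Subgroup.relIndex_dvd_index_of_normal _ _

end Pool.Agent.H99.FI
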