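import Pool.Agent.H6.FI.TargetsC

/-!
# MP_7500ea_al: row DUA, the dual of the Fitting subgroup modulo the Frattini subgroup
-/

set_option autoImplicit false

open FI AMc AMt
open scoped Classical ComplexConjugate

namespace Pool.Agent.H99.FI

theorem dua_CR (h5 : T_GAS) {G : Type} [Group G] [Finite G] {W : Type} [AddCommGroup W]
    (f : fit G →* Multiplicative W) (κ : G →* AddMonoid.End W) (hf : Function.Surjective f)
    (hk : ∀ d : fit G, f d = 1 ↔ (d : G) ∈ frattini G) (hΦ : frattini G ≤ fit G)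
    (hκ : ∀ (r : G) (d d' : fit G), (d' : G) = r * d * r⁻¹ →
      κ r (Multiplicative.toAdd (f d)) = Multiplicative.toAdd (f d')) : CR κ ⊤ ⊤ := by
  intro X _ hX
  -- the subgroup B
  set B : Subgroup G := ((AddSubgroup.toSubgroup X).comap f).map (fit G).subtype with hB
  have hBm : ∀ a : fit G, Multiplicative.toAdd (f a) ∈ X → (a : G) ∈ B := by
    intro a ha
    exact ⟨a, ha, rfl⟩
  have hBm' : ∀ g : G, g ∈ B → ∃ a : fit G, (a : G) = g ∧ Multiplicative.toAdd (f a) ∈ X := by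
    rintro _ ⟨a, ha, rfl⟩
    exact ⟨a, rfl, ha⟩
  have hcj : ∀ (g : G) (a : fit G), g * (a : G) * g⁻¹ ∈ fit G := by
    intro g a
    exact (fit_normal G).conj_mem _ a.2 g
  have hBn : B.Normal := by
    refine ⟨fun x hx g => ?_⟩
    obtain ⟨a, rfl, ha⟩ := hBm' x hx
    have h3 := hκ g a ⟨g * a * g⁻¹, hcj g a⟩ rfl
    refine hBm ⟨g * a * g⁻¹, hcj g a⟩ ?_
    rw [← h3]
    exact hX g (Subgroup.mem_top g) _ ha
  have hBΦ : frattini G ≤ B := by
    intro x hx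
    have h3 : f ⟨x, hΦ hx⟩ = 1 := (hk ⟨x, hΦ hx⟩).mpr hx
    refine hBm ⟨x, hΦ hx⟩ ?_
    rw [h3]
    exact X.zero_mem
  have hBF : B ≤ fit G := by
    rintro _ ⟨a, _, rfl⟩
    exact a.2
  obtain ⟨B', hn', hΦ', hF', hinf, hsup⟩ := h5 G B hBn hBΦ hBF
  -- the complement
  let X' : AddSubgroup W := AddSubgroup.toSubgroup.symm ((B'.subgroupOf (fit G)).map f)
  have hXm : ∀ a : fit G, (a : G) ∈ B' → Multiplicative.toAdd (f a) ∈ X' := by
    intro a ha
    exact ⟨a, ha, rfl⟩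
  have hXm' : ∀ w : W, w ∈ X' → ∃ a : fit G, (a : G) ∈ B' ∧ Multiplicative.toAdd (f a) = w := by
    rintro w ⟨a, ha, he⟩
    exact ⟨a, ha, he⟩
  refine ⟨X', le_top, ?_, ?_, ?_⟩
  · intro g _ w hw
    obtain ⟨a, ha, rfl⟩ := hXm' w hw
    have h3 := hκ g a ⟨g * a * g⁻¹, hcj g a⟩ rfl
    rw [h3]
    exact hXm ⟨g * a * g⁻¹, hcj g a⟩ (hn'.conj_mem _ ha g)
  · rw [eq_bot_iff]
    intro w hw
    obtain ⟨a, ha, rfl⟩ := hXm' w hw.2
    have h3 : (a : G) ∈ B ⊓ B' := ⟨hBm a hw.1, ha⟩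
    rw [hinf] at h3
    have h4 := (hk a).mpr h3
    rw [h4]
    exact rfl
  · rw [eq_top_iff]
    intro w _
    obtain ⟨a, ha⟩ := hf (Multiplicative.ofAdd w)
    have h3 : (a : G) ∈ B ⊔ B' := by
      rw [hsup]
      exact a.2
    obtain ⟨b, hb, b', hb', he⟩ := Subgroup.mem_sup_of_normal_right.mp h3
    obtain ⟨c, hc, hcX⟩ := hBm' b hb
    have h4 : a = c * ⟨b', hF' hb'⟩ := by
      apply Subtype.ext
      show (a : G) = c * b'
      rw [hc, he]
    have h5 : w = Multiplicative.toAdd (f c) + Multiplicative.toAdd (f ⟨b', hF' hb'⟩) := by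
      have h6 : Multiplicative.toAdd (f a) = w := by rw [ha]; rfl
      rw [← h6, h4, map_mul]
      rfl
    rw [h5]
    exact AddSubgroup.add_mem_sup hcX (hXm ⟨b', hF' hb'⟩ hb')

theorem pf_DUA (h1 : T_SEC) (h2 : T_DU0) (h3 : T_FNL) (h4 : T_FPH) (h5 : T_GAS) (h6 : T_CEN) :
    T_DUA := by
  intro G _ _
  obtain ⟨_, hΦ, _⟩ := h3 G
  obtain ⟨W, iW, fW, f, κ, hf, hk, _, hκ⟩ := h1 G (frattini G) (fit G) inferInstance
    (fit_normal G) hΦ (h4 G)
  obtain ⟨V, iV, fV, ρ, P, hCR, hCk, hP⟩ := h2 G W κ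
  have hcj : ∀ (g : G) (a : fit G), g * (a : G) * g⁻¹ ∈ fit G := by
    intro g a
    exact (fit_normal G).conj_mem _ a.2 g
  refine ⟨V, iV, fV, ρ, fun v => (P v).comp f, hCR (dua_CR h5 f κ hf hk hΦ hκ), ?_, ?_⟩
  · intro g hg
    rw [hCk, mem_Ck]
    constructor
    · intro h
      refine h6 G g hg fun a ha => ?_
      have h7 := hκ g ⟨a, ha⟩ ⟨g * a * g⁻¹, hcj g ⟨a, ha⟩⟩ rfl
      rw [h _ trivial] at h7
      have h8 : f (⟨g * a * g⁻¹, hcj g ⟨a, ha⟩⟩ * (⟨a, ha⟩ : fit G)⁻¹) = 1 := by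
        rw [map_mul, map_inv]
        have h9 : f ⟨a, ha⟩ = f ⟨g * a * g⁻¹, hcj g ⟨a, ha⟩⟩ := h7
        rw [← h9, mul_inv_cancel]
      exact (hk _).mp h8
    · intro h w _
      obtain ⟨a, ha⟩ := hf (Multiplicative.ofAdd w)
      have h7 := hκ g a ⟨g * a * g⁻¹, hcj g a⟩ rfl
      have h8 : f (⟨g * a * g⁻¹, hcj g a⟩ * a⁻¹) = 1 := by
        rw [hk]
        exact h4 G g h a a.2
      rw [map_mul, map_inv, mul_inv_eq_one] at h8
      rw [h8, ha] at h7
      exact h7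
  · intro g v
    rw [hP g v]
    constructor
    · intro h a b hab
      have h7 := h (Multiplicative.toAdd (f a))
      rw [hκ g a b hab] at h7
      exact h7
    · intro h w
      obtain ⟨a, ha⟩ := hf (Multiplicative.ofAdd w)
      have h7 := h a ⟨g * a * g⁻¹, hcj g a⟩ rfl
      have h8 := hκ g a ⟨g * a * g⁻¹, hcj g a⟩ rfl
      have h9 : Multiplicative.toAdd (f a) = w := by rw [ha]; rfl
      rw [h9] at h8
      rw [h8]
      have h10 : P v (f ⟨g * a * g⁻¹, hcj g a⟩) = P v (f a) := h7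
      rw [ha] at h10
      exact h10

end Pool.Agent.H99.FI
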