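import Pool.Agent.H6.FI.TargetsB
import Pool.Agent.H94.FI.LCH

/-!
# MP_7500ea_al: row EX1, extension of a central character trivial on the commutator subgroup
-/

set_option autoImplicit false

open FI AMc AMt
open scoped Classical ComplexConjugate

namespace Pool.Agent.H99.FI

theorem pf_EX1 (h1 : T_AEC) (h2 : T_ABL) : T_EX1 := by
  intro Γ _ _ Z M C δ hA ν hν hνD
  have hcen := hA.cen
  have hZab : ∀ a ∈ Z, ∀ b ∈ Z, a * b = b * a := fun a ha b _ => hcen a ha b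
  obtain ⟨ν1, νm⟩ := h2 Γ Z hZab ν hν
  obtain ⟨_, _, hMle, _⟩ := h1 Γ Z M C δ hA
  have hZM : Z ≤ M := by
    rw [← hA.inf]
    exact inf_le_left
  have hMn : M.Normal := hA.nor
  have hDn : (⁅M, M⁆ : Subgroup Γ).Normal := Subgroup.commutator_normal M M
  have hDM : ⁅M, M⁆ ≤ M := Subgroup.commutator_le_left M M
  have hν0 : ∀ g, g ∉ Z → ν g = 0 := by
    intro g hg
    obtain ⟨ψ, _, hψ⟩ := hν
    rw [← hψ]
    unfold ext0
    rw [dif_neg hg]
  have hdec : ∀ m ∈ M, ∃ z, z ∈ Z ∧ z⁻¹ * m ∈ ⁅M, M⁆ := by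
    intro m hm
    obtain ⟨z, hz, d, hd, he⟩ := Subgroup.mem_sup_of_normal_right.mp (hMle hm)
    refine ⟨z, hz, ?_⟩
    rw [← he, inv_mul_cancel_left]
    exact hd
  have hwd : ∀ z ∈ Z, ∀ w ∈ Z, ∀ g, z⁻¹ * g ∈ ⁅M, M⁆ → w⁻¹ * g ∈ ⁅M, M⁆ → ν z = ν w := by
    intro z hz w hw g h h'
    have h0 : z⁻¹ * w = (z⁻¹ * g) * (w⁻¹ * g)⁻¹ := by group
    have h3 : z⁻¹ * w ∈ Z ⊓ ⁅M, M⁆ := by
      refine ⟨Z.mul_mem (Z.inv_mem hz) hw, ?_⟩
      rw [h0]
      exact Subgroup.mul_mem _ h (Subgroup.inv_mem _ h')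
    have h4 := hνD _ h3
    have h5 := νm z hz (z⁻¹ * w) h3.1
    rw [mul_inv_cancel_left, h4, mul_one] at h5
    exact h5.symm
  choose! zz hzZ hzD using hdec
  set μ : Γ → ℂ := fun g => if g ∈ M then ν (zz g) else 0 with hμd
  have hμ : ∀ g z, z ∈ Z → z⁻¹ * g ∈ ⁅M, M⁆ → μ g = ν z := by
    intro g z hz hg
    have hgM : g ∈ M := by
      have : g = z * (z⁻¹ * g) := by group
      rw [this]
      exact M.mul_mem (hZM hz) (hDM hg)
    show (if g ∈ M then ν (zz g) else 0) = ν z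
    rw [if_pos hgM]
    exact hwd _ (hzZ g hgM) z hz g (hzD g hgM) hg
  have hne : ∀ z ∈ Z, ν z ≠ 0 := by
    intro z hz h0
    have h3 := νm z hz z⁻¹ (Z.inv_mem hz)
    rw [mul_inv_cancel, ν1, h0, zero_mul] at h3
    exact one_ne_zero h3
  have hμne : ∀ m ∈ M, μ m ≠ 0 := by
    intro m hm
    rw [hμ m (zz m) (hzZ m hm) (hzD m hm)]
    exact hne _ (hzZ m hm)
  have hμ1 : μ 1 = 1 := by
    rw [hμ 1 1 Z.one_mem (by simp), ν1]
  have hμm : ∀ a ∈ M, ∀ b ∈ M, μ (a * b) = μ a * μ b := by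
    intro a ha b hb
    rw [hμ a (zz a) (hzZ a ha) (hzD a ha), hμ b (zz b) (hzZ b hb) (hzD b hb),
      ← νm _ (hzZ a ha) _ (hzZ b hb)]
    apply hμ _ _ (Z.mul_mem (hzZ a ha) (hzZ b hb))
    have h3 : (zz a * zz b)⁻¹ * (a * b) = ((zz a)⁻¹ * a) * ((zz b)⁻¹ * b) := by
      have h4 := hcen (zz b)⁻¹ (Z.inv_mem (hzZ b hb)) ((zz a)⁻¹ * a)
      calc (zz a * zz b)⁻¹ * (a * b) = ((zz b)⁻¹ * ((zz a)⁻¹ * a)) * b := by group
        _ = (((zz a)⁻¹ * a) * (zz b)⁻¹) * b := by rw [h4]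
        _ = ((zz a)⁻¹ * a) * ((zz b)⁻¹ * b) := by group
    rw [h3]
    exact Subgroup.mul_mem _ (hzD a ha) (hzD b hb)
  let l : M →* ℂˣ :=
    { toFun := fun m => Units.mk0 (μ m) (hμne m m.2)
      map_one' := by
        ext
        exact hμ1
      map_mul' := by
        intro a b
        ext
        exact hμm a a.2 b b.2 }
  have hl : ext0 M (fun m => ((l m : ℂˣ) : ℂ)) = μ := by
    funext g
    unfold ext0
    by_cases hg : g ∈ M
    · rw [dif_pos hg]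
      rfl
    · rw [dif_neg hg]
      show 0 = (if g ∈ M then ν (zz g) else 0)
      rw [if_neg hg]
  refine ⟨μ, ⟨_, Pool.Agent.H94.FI.pf_LCH M l, hl⟩, hμ1, ?_, ?_⟩
  · show ∑ g : Γ, μ g * conj (ν g) ≠ 0
    have h3 : ∀ g : Γ, μ g * conj (ν g) = ((Complex.normSq (ν g) : ℝ) : ℂ) := by
      intro g
      by_cases hg : g ∈ Z
      · rw [hμ g g hg (by simp), Complex.mul_conj]
      · rw [hν0 g hg]
        simp
    rw [Finset.sum_congr rfl (fun g _ => h3 g), ← Complex.ofReal_sum, Complex.ofReal_ne_zero]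
    apply ne_of_gt
    refine Finset.sum_pos' (fun g _ => Complex.normSq_nonneg _) ⟨1, Finset.mem_univ _, ?_⟩
    rw [ν1]
    simp
  · intro g
    funext x
    show μ (g * x * g⁻¹) = μ x
    by_cases hx : x ∈ M
    · rw [hμ x (zz x) (hzZ x hx) (hzD x hx)]
      apply hμ _ _ (hzZ x hx)
      have h4 := hcen (zz x)⁻¹ (Z.inv_mem (hzZ x hx)) g
      have h3 : (zz x)⁻¹ * (g * x * g⁻¹) = g * ((zz x)⁻¹ * x) * g⁻¹ := by
        calc (zz x)⁻¹ * (g * x * g⁻¹) = ((zz x)⁻¹ * g) * x * g⁻¹ := by group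
          _ = (g * (zz x)⁻¹) * x * g⁻¹ := by rw [h4]
          _ = g * ((zz x)⁻¹ * x) * g⁻¹ := by group
      rw [h3]
      exact hDn.conj_mem _ (hzD x hx) g
    · have hx' : g * x * g⁻¹ ∉ M := by
        intro h
        apply hx
        have h5 := hMn.conj_mem _ h g⁻¹
        have h6 : g⁻¹ * (g * x * g⁻¹) * g⁻¹⁻¹ = x := by group
        rwa [h6] at h5
      show (if g * x * g⁻¹ ∈ M then ν (zz (g * x * g⁻¹)) else 0) = if x ∈ M then ν (zz x) else 0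
      rw [if_neg hx', if_neg hx]

end Pool.Agent.H99.FI
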