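import Pool.Agent.H6.FI.TargetsC

/-!
# MP_7500ea_al: row GDI, the condition on the indices for the groups in the class
-/

set_option autoImplicit false

open FI AMc AMt

namespace Pool.Agent.H99.FI

theorem gdi_sub {A B : Type} [Group A] [Group B] (f : A →* B)
    (hf : Group.IsSolvable f.ker) (T : Subgroup A) : Group.IsSolvable (f.subgroupMap T).ker := by
  let g : (f.subgroupMap T).ker →* f.ker :=
    { toFun := fun x => ⟨((x : T) : A), by
        have h := x.2
        rw [MonoidHom.mem_ker] at h ⊢
        exact congrArg Subtype.val h⟩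
      map_one' := rfl
      map_mul' := fun _ _ => rfl }
  have hg : Function.Injective g := by
    intro x y h
    have h' : ((x : T) : A) = ((y : T) : A) := congrArg (fun z : f.ker => (z : A)) h
    exact Subtype.ext (Subtype.ext h')
  exact Group.isSolvable_of_isSolvable_injective hg

theorem gdi_comap {A B : Type} [Group A] [Group B] (f : A →* B)
    (hf : Group.IsSolvable f.ker) (K : Subgroup B) : Group.IsSolvable (f.subgroupComap K).ker := by
  let g : (f.subgroupComap K).ker →* f.ker :=
    { toFun := fun x => ⟨((x : K.comap f) : A), by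
        have h := x.2
        rw [MonoidHom.mem_ker] at h ⊢
        exact congrArg Subtype.val h⟩
      map_one' := rfl
      map_mul' := fun _ _ => rfl }
  have hg : Function.Injective g := by
    intro x y h
    have h' : ((x : K.comap f) : A) = ((y : K.comap f) : A) := congrArg (fun z : f.ker => (z : A)) h
    exact Subtype.ext (Subtype.ext h')
  exact Group.isSolvable_of_isSolvable_injective hg

theorem gdi_equiv (h2 : T_SQ) {A B : Type} [Group A] [Finite A] [Group B] [Finite B]
    (f : A ≃* B) : (sol A).index = (sol B).index := by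
  refine (h2 A B f.toMonoidHom f.surjective ?_).1
  have hk : f.toMonoidHom.ker = ⊥ := (MonoidHom.ker_eq_bot_iff _).mpr f.injective
  rw [hk]
  infer_instance

theorem pf_GDI (_h1 : T_SOL) (h2 : T_SQ) : T_GDI := by
  intro e he Y _ _ hY X _ _ hX T
  obtain ⟨S, Z, gZ, fZ, a, b, ha, hb, ka, kb⟩ := hX
  have i1 := (h2 X Z a ha ka).1
  have i2 := (h2 S Z b hb kb).1
  set Ta : Subgroup Z := T.map a with hTa
  have i3 : (sol T).index = (sol Ta).index :=
    (h2 T Ta (a.subgroupMap T) (a.subgroupMap_surjective T) (gdi_sub a ka T)).1
  set K : Subgroup S := Ta.comap b with hK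
  have i4 : (sol K).index = (sol Ta).index :=
    (h2 K Ta (b.subgroupComap Ta) (b.subgroupComap_surjective_of_surjective Ta hb)
      (gdi_comap b kb Ta)).1
  set T' : Subgroup Y := K.map S.subtype with hT'
  have i5 : (sol K).index = (sol T').index :=
    gdi_equiv h2 (K.equivMapOfInjective S.subtype S.subtype_injective)
  have hle : T' ≤ S := by
    rintro y ⟨s, _, rfl⟩
    exact s.2
  have hsub : T'.subgroupOf S = K :=
    Subgroup.comap_map_eq_self_of_injective S.subtype_injective K
  have i6 : T'.relIndex S = Ta.index := by
    unfold Subgroup.relIndex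
    rw [hsub, hK]
    exact Subgroup.index_comap_of_surjective Ta hb
  have i7 : Ta.index ≤ T.index :=
    Nat.le_of_dvd (Nat.pos_of_ne_zero Subgroup.index_ne_zero_of_finite)
      (Subgroup.index_map_dvd T ha)
  have hmain := hY.idx T' S hle
  rw [i6, ← i5, i4, ← i3, i2, ← i1] at hmain
  refine hmain.trans ?_
  apply mul_le_mul_of_nonneg_right _ (Nat.cast_nonneg _)
  exact Real.rpow_le_rpow (Nat.cast_nonneg _) (by exact_mod_cast i7) (by linarith)

end Pool.Agent.H99.FI
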